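import Pool.Agent.THS.StmtsG

/-! Row SCA of the table ths (helper33). -/

namespace Pool.Agent.THS.H33

open scoped BigOperators

theorem add_self_z2 {g : ℕ} (e c : Fin g → ZMod 2) : e + c + c = e := by
  have h : ∀ u : ZMod 2, u + u = 0 := by decide
  funext i
  simp only [Pi.add_apply]
  rw [add_assoc, h, add_zero]

theorem sca (hR : RqiStatement) : ScaStatement := by
  intro g K _ φ θ V x μ hne hpar hV hx hμ
  have h2 : (2 : ℂ) ^ g ≠ 0 := pow_ne_zero _ two_ne_zero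
  have hF2 : (2 : ℂ) ^ g ∈ φ.fieldRange := by
    refine ⟨(2 : K) ^ g, ?_⟩
    rw [map_pow, map_ofNat]
  have R0 : ∀ (i j : ℤ) (e c : Fin g → ZMod 2),
      μ i * μ j * (θ (i + j) e * θ (i - j) c) ∈ φ.fieldRange := by
    intro i j e c
    have h1 := hR g ℂ θ (e + c) c i j
    rw [add_self_z2] at h1
    have h3 : (2 : ℂ) ^ g * (μ i * μ j * (θ (i + j) e * θ (i - j) c))
        = φ (∑ b : Fin g → ZMod 2, (sgn b e : K) * (x i (e + c, b) * x j (e + c, b))) := by
      rw [map_sum]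
      have h4 : ∀ b : Fin g → ZMod 2, φ ((sgn b e : K) * (x i (e + c, b) * x j (e + c, b)))
          = μ i * μ j * ((sgn b e : ℂ) * RQ θ (e + c) b i j) := by
        intro b
        rw [map_mul, map_mul, hx, hx, map_intCast, ← hV]
        ring
      rw [Finset.sum_congr rfl (fun b _ => h4 b), ← Finset.mul_sum, h1]
      ring
    have h5 : μ i * μ j * (θ (i + j) e * θ (i - j) c)
        = φ (∑ b : Fin g → ZMod 2, (sgn b e : K) * (x i (e + c, b) * x j (e + c, b)))
          / (2 : ℂ) ^ g := by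
      rw [← h3]
      field_simp
    rw [h5]
    exact div_mem ⟨_, rfl⟩ hF2
  obtain ⟨c0, hc0⟩ := hne 0
  obtain ⟨c1, hc1⟩ := hne 1
  have A0 : ∀ e, θ 0 e / θ 0 c0 ∈ φ.fieldRange := by
    intro e
    have h1 := R0 0 0 e c0
    have h3 := R0 0 0 c0 c0
    simp only [add_zero, sub_zero] at h1 h3
    have h4 : θ 0 e / θ 0 c0 = (μ 0 * μ 0 * (θ 0 e * θ 0 c0)) / (μ 0 * μ 0 * (θ 0 c0 * θ 0 c0)) := by
      have := hμ 0
      field_simp
    rw [h4]
    exact div_mem h1 h3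
  have A1 : ∀ e, θ 1 e / θ 1 c1 ∈ φ.fieldRange := by
    intro e
    have h1 := R0 1 0 e c1
    have h3 := R0 1 0 c1 c1
    simp only [add_zero, sub_zero] at h1 h3
    have h4 : θ 1 e / θ 1 c1 = (μ 1 * μ 0 * (θ 1 e * θ 1 c1)) / (μ 1 * μ 0 * (θ 1 c1 * θ 1 c1)) := by
      have := hμ 0
      have := hμ 1
      field_simp
    rw [h4]
    exact div_mem h1 h3
  set ℓ : ℂ := 1 / θ 0 c0 with hℓ
  set m : ℂ := θ 0 c0 / θ 1 c1 with hm
  have hℓ0 : ℓ ≠ 0 := by rw [hℓ]; exact one_div_ne_zero hc0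
  have hm0 : m ≠ 0 := by rw [hm]; exact div_ne_zero hc0 hc1
  have A2 : μ 1 / (μ 0 * m ^ 2) ∈ φ.fieldRange := by
    have h1 := R0 0 0 c0 c0
    have h3 := R0 1 0 c1 c1
    simp only [add_zero, sub_zero] at h1 h3
    have h4 : μ 1 / (μ 0 * m ^ 2)
        = (μ 1 * μ 0 * (θ 1 c1 * θ 1 c1)) / (μ 0 * μ 0 * (θ 0 c0 * θ 0 c0)) := by
      have := hμ 0
      rw [hm]
      field_simp
    rw [h4]
    exact div_mem h3 h1
  have P : ∀ k : ℕ, (∀ e, ℓ * m ^ (k ^ 2) * θ (k : ℤ) e ∈ φ.fieldRange) ∧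
      (∀ e, ℓ * m ^ ((k + 1) ^ 2) * θ ((k : ℤ) + 1) e ∈ φ.fieldRange) := by
    intro k
    induction k with
    | zero =>
      constructor
      · intro e
        have h1 := A0 e
        have h4 : ℓ * m ^ (0 ^ 2) * θ ((0 : ℕ) : ℤ) e = θ 0 e / θ 0 c0 := by
          rw [hℓ]
          simp only [Nat.cast_zero]
          norm_num
          field_simp
        rw [h4]
        exact h1
      · intro e
        have h1 := A1 e
        have h4 : ℓ * m ^ ((0 + 1) ^ 2) * θ (((0 : ℕ) : ℤ) + 1) e = θ 1 e / θ 1 c1 := by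
          rw [hℓ, hm]
          simp only [Nat.cast_zero, zero_add]
          norm_num
          field_simp
        rw [h4]
        exact h1
    | succ k ih =>
      obtain ⟨ih1, ih2⟩ := ih
      refine ⟨?_, ?_⟩
      · intro e
        have := ih2 e
        push_cast
        exact this
      · intro e
        obtain ⟨u, hu⟩ := hne ((k : ℤ) + 1)
        obtain ⟨c, hc⟩ := hne (k : ℤ)
        have a1 := R0 ((k : ℤ) + 1) 0 u u
        simp only [add_zero, sub_zero] at a1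
        have b1 := ih2 u
        have e1 := R0 ((k : ℤ) + 1) 1 e c
        have hk : (k : ℤ) + 1 - 1 = k := by ring
        rw [hk] at e1
        have g1 := ih1 c
        have key : ℓ * m ^ ((k + 1 + 1) ^ 2) * θ (((k + 1 : ℕ) : ℤ) + 1) e
            = (μ ((k : ℤ) + 1) * μ 1 * (θ ((k : ℤ) + 1 + 1) e * θ (k : ℤ) c))
              / ((ℓ * m ^ (k ^ 2) * θ (k : ℤ) c)
                * (((μ ((k : ℤ) + 1) * μ 0 * (θ ((k : ℤ) + 1) u * θ ((k : ℤ) + 1) u))
                  / ((ℓ * m ^ ((k + 1) ^ 2) * θ ((k : ℤ) + 1) u) ^ 2))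
                  * (μ 1 / (μ 0 * m ^ 2)))) := by
          have q0 := hμ 0
          have q1 := hμ 1
          have qk := hμ ((k : ℤ) + 1)
          have hpow : m ^ ((k + 1) ^ 2 * 2 + 2) = m ^ ((k + 1 + 1) ^ 2) * m ^ (k ^ 2) := by
            rw [← pow_add]
            congr 1
            ring
          push_cast
          field_simp
          have hpow2 : (m ^ ((k + 1) ^ 2)) ^ 2 * m ^ 2 = m ^ ((k + 1 + 1) ^ 2) * m ^ (k ^ 2) := by
            rw [← hpow, pow_add, pow_mul]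
          linear_combination (-(θ ((k : ℤ) + 1 + 1) e)) * hpow2
        rw [key]
        exact div_mem e1 (mul_mem g1 (mul_mem (div_mem a1 (pow_mem b1 2)) A2))
  have Q : ∀ (k : ℤ) (c : Fin g → ZMod 2), ∃ t : K, φ t = ℓ * m ^ (k ^ 2) * θ k c := by
    intro k c
    obtain ⟨n, rfl | rfl⟩ := Int.eq_nat_or_neg k
    · obtain ⟨t, ht⟩ := (P n).1 c
      refine ⟨t, ?_⟩
      rw [ht]
      have : m ^ ((n : ℤ) ^ 2) = m ^ (n ^ 2) := by exact_mod_cast zpow_natCast m (n ^ 2)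
      rw [this]
    · obtain ⟨t, ht⟩ := (P n).1 c
      refine ⟨t, ?_⟩
      rw [ht, neg_sq, hpar]
      have : m ^ ((n : ℤ) ^ 2) = m ^ (n ^ 2) := by exact_mod_cast zpow_natCast m (n ^ 2)
      rw [this]
  choose T hT using Q
  exact ⟨ℓ, m, T, hℓ0, hm0, hT⟩

end Pool.Agent.THS.H33
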